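import Pool.Agent.Helper39.WH.PropMod

/-!
# Semigroups generated by arithmetic sequences are proportionally modular
-/

set_option autoImplicit false

namespace Pool.Agent.Helper39.WH

variable {S : AddSubmonoid ℕ}

/-- The semigroup generated by `a, a + h, …, a + k h`, `a` and `h` coprime. -/
theorem propMod_arith {a h k : ℕ} (ha : 0 < a) (hh : 0 < h) (hk : 0 < k) (hah : a.Coprime h)
    (hS : ∀ x, x ∈ S ↔ ∃ n j : ℕ, j ≤ n * k ∧ x = n * a + j * h) : PropMod S := by
  set u : ℤ := Nat.gcdA a h
  set v : ℤ := Nat.gcdB a h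
  have huv : (a : ℤ) * u + h * v = 1 := by
    have := Nat.gcd_eq_gcd_ab a h
    rw [hah] at this
    exact_mod_cast this.symm
  have ha' : (0 : ℝ) < a := by exact_mod_cast ha
  have hh' : (0 : ℝ) < h := by exact_mod_cast hh
  have hk' : (0 : ℝ) < k := by exact_mod_cast hk
  have hb' : (0 : ℝ) < a + k * h := by positivity
  refine ⟨(1 / (a + k * h) - (u : ℝ)) / h, (1 / a - (u : ℝ)) / h, ?_, fun x => ?_⟩
  · rw [div_lt_div_iff_of_pos_right hh']
    have : (1 : ℝ) / (a + k * h) < 1 / a := by
      apply one_div_lt_one_div_of_lt ha'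
      have : 0 < (k : ℝ) * h := by positivity
      linarith
    linarith
  · have e1 : ∀ m : ℤ, ((1 / (a + k * h) - (u : ℝ)) / h * x ≤ m ↔
        (x : ℝ) ≤ (h * m + x * u) * (a + k * h)) := by
      intro m
      rw [div_mul_eq_mul_div, div_le_iff₀ hh', ← div_le_iff₀ hb', sub_mul]
      constructor
      · intro h1
        have : (x : ℝ) / (a + k * h) = 1 / (a + k * h) * x := by ring
        rw [this]
        linarith
      · intro h1
        have : (x : ℝ) / (a + k * h) = 1 / (a + k * h) * x := by ring
        rw [this] at h1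
        linarith
    have e2 : ∀ m : ℤ, ((m : ℝ) ≤ (1 / a - (u : ℝ)) / h * x ↔
        (h * m + x * u) * a ≤ (x : ℝ)) := by
      intro m
      rw [div_mul_eq_mul_div, le_div_iff₀ hh', ← le_div_iff₀ ha', sub_mul]
      constructor
      · intro h1
        have : (x : ℝ) / a = 1 / a * x := by ring
        rw [this]
        linarith
      · intro h1
        have : (x : ℝ) / a = 1 / a * x := by ring
        rw [this] at h1
        linarith
    rw [hS]
    constructor
    · rintro ⟨n, j, hj, rfl⟩
      refine ⟨n * v - j * u, (e1 _).2 ?_, (e2 _).2 ?_⟩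
      · have e3 : ((h : ℝ) * ((n * v - j * u : ℤ) : ℝ) + ((n * a + j * h : ℕ) : ℝ) * u) = n := by
          have : ((h : ℤ) * (n * v - j * u) + (n * a + j * h : ℤ) * u) = n := by
            linear_combination (n : ℤ) * huv
          exact_mod_cast this
        rw [e3]
        have : (j : ℝ) ≤ n * k := by exact_mod_cast hj
        push_cast
        nlinarith
      · have e3 : ((h : ℝ) * ((n * v - j * u : ℤ) : ℝ) + ((n * a + j * h : ℕ) : ℝ) * u) = n := by
          have : ((h : ℤ) * (n * v - j * u) + (n * a + j * h : ℤ) * u) = n := by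
            linear_combination (n : ℤ) * huv
          exact_mod_cast this
        rw [e3]
        push_cast
        have : (0 : ℝ) ≤ (j : ℝ) * h := by positivity
        linarith
    · rintro ⟨m, h1, h2⟩
      rw [e1] at h1
      rw [e2] at h2
      have h3 : (x : ℤ) ≤ (h * m + x * u) * (a + k * h) := by exact_mod_cast h1
      have h4 : (h * m + x * u) * a ≤ (x : ℤ) := by exact_mod_cast h2
      obtain ⟨n, hn⟩ : ∃ n : ℤ, n = h * m + x * u := ⟨_, rfl⟩
      rw [← hn] at h3 h4
      have hn0 : 0 ≤ n := by
        by_contra hcon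
        push Not at hcon
        have : (0 : ℤ) < a + k * h := by positivity
        have hx : (0 : ℤ) ≤ x := Int.natCast_nonneg x
        nlinarith
      obtain ⟨j, hj⟩ : ∃ j : ℤ, j = x * v - m * a := ⟨_, rfl⟩
      have hxj : (x : ℤ) = n * a + j * h := by
        rw [hn, hj]
        linear_combination (-(x : ℤ)) * huv
      have hh'' : (0 : ℤ) < h := by exact_mod_cast hh
      have hj0 : 0 ≤ j := by
        by_contra hcon
        push Not at hcon
        nlinarith
      have hjk : j ≤ n * k := by
        by_contra hcon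
        push Not at hcon
        nlinarith
      refine ⟨n.toNat, j.toNat, ?_, ?_⟩
      · zify
        rw [Int.toNat_of_nonneg hn0, Int.toNat_of_nonneg hj0]
        exact hjk
      · zify
        rw [Int.toNat_of_nonneg hn0, Int.toNat_of_nonneg hj0]
        exact hxj

end Pool.Agent.Helper39.WH
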