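import Pool.Agent.Helper39.WH.Defs

/-!
# The inequality `g ≤ t n` and its consequence for Wilf's inequality
-/

set_option autoImplicit false

namespace Pool.Agent.Helper39.WH

variable {S : AddSubmonoid ℕ}

theorem conductor_spec (hS : IsNumerical S) : ∀ n, conductor S ≤ n → n ∈ S := by
  have hne : {c | ∀ n, c ≤ n → n ∈ S}.Nonempty := by
    obtain ⟨B, hB⟩ := hS.bddAbove
    refine ⟨B + 1, fun n hn => ?_⟩
    by_contra h
    have := hB h
    omega
  exact Nat.sInf_mem hne

theorem lt_conductor (hS : IsNumerical S) {x : ℕ} (hx : x ∉ S) : x < conductor S := by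
  by_contra h
  exact hx (conductor_spec hS x (not_lt.1 h))

theorem minGens_finite (hS : IsNumerical S) : (minGens S).Finite := by
  set c := conductor S
  refine (Set.finite_Iic (c + (c + 1))).subset fun x hx => ?_
  by_contra h
  simp only [Set.mem_Iic, not_le] at h
  have h1 : (c + 1) ∈ S := conductor_spec hS _ (by omega)
  have h2 : x - (c + 1) ∈ S := conductor_spec hS _ (by omega)
  rcases hx.2.2 _ h1 _ h2 (by omega) with h3 | h3 <;> omega

/-- every element is generated by the minimal generators -/
theorem closure_minGens (S : AddSubmonoid ℕ) {x : ℕ} (hx : x ∈ S) :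
    x ∈ AddSubmonoid.closure (minGens S) := by
  induction x using Nat.strong_induction_on with
  | _ x ih =>
    rcases Nat.eq_zero_or_pos x with h0 | h0
    · subst h0
      exact AddSubmonoid.zero_mem _
    · by_cases hm : x ∈ minGens S
      · exact AddSubmonoid.subset_closure hm
      · have : ∃ a ∈ S, ∃ b ∈ S, a + b = x ∧ a ≠ 0 ∧ b ≠ 0 := by
          by_contra hcon
          push Not at hcon
          apply hm
          refine ⟨hx, h0.ne', fun a ha b hb hab => ?_⟩
          by_contra h
          push Not at h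
          exact h.2 (hcon a ha b hb hab h.1)
        obtain ⟨a, ha, b, hb, hab, ha0, hb0⟩ := this
        rw [← hab]
        exact AddSubmonoid.add_mem _ (ih a (by omega) ha) (ih b (by omega) hb)

/-- The pseudo-Frobenius numbers (for `S ≠ ℕ`). -/
def PF (S : AddSubmonoid ℕ) : Set ℕ := {f | f ∉ S ∧ ∀ s ∈ S, s ≠ 0 → f + s ∈ S}

theorem PF_finite (hS : IsNumerical S) : (PF S).Finite := hS.subset fun _ hx => hx.1

/-- every gap is below a pseudo-Frobenius number -/
theorem exists_pf (hS : IsNumerical S) {x : ℕ} (hx : x ∉ S) :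
    ∃ f ∈ PF S, ∃ s ∈ S, f = x + s := by
  classical
  have hfin : {y | y ∉ S ∧ ∃ s ∈ S, y = x + s}.Finite := hS.subset fun _ hy => hy.1
  have hne : {y | y ∉ S ∧ ∃ s ∈ S, y = x + s}.Nonempty := ⟨x, hx, 0, S.zero_mem, rfl⟩
  obtain ⟨f, ⟨hf, s, hs, hfs⟩, hmax⟩ := Set.exists_max_image _ id hfin hne
  refine ⟨f, ⟨hf, fun u hu hu0 => ?_⟩, s, hs, hfs⟩
  by_contra hcon
  have := hmax (f + u) ⟨hcon, s + u, S.add_mem hs hu, by omega⟩
  simp only [id] at this
  omega

/-- `g ≤ t n` -/
theorem genus_le (hS : IsNumerical S) :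
    genus S ≤ (PF S).ncard * ({x | x ∈ S ∧ x < conductor S}.ncard) := by
  classical
  choose! F hF s hs hFs using fun x (hx : x ∉ S) => exists_pf hS hx
  rw [← Set.ncard_prod]
  refine Set.ncard_le_ncard_of_injOn (fun x => (F x, s x)) ?_ ?_ ?_
  · intro x hx
    have hx' : x ∉ S := hx
    refine Set.mem_prod.2 ⟨hF x hx', hs x hx', ?_⟩
    have h1 := lt_conductor hS (hF x hx').1
    have h2 := hFs x hx'
    change s x < _
    omega
  · intro x hx y hy hxy
    have h1 := hFs x hx
    have h2 := hFs y hy
    simp only [Prod.mk.injEq] at hxy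
    omega
  · refine (PF_finite hS).prod ((Set.finite_Iio (conductor S)).subset fun x hx => hx.2)

theorem conductor_eq (hS : IsNumerical S) :
    conductor S = genus S + {x | x ∈ S ∧ x < conductor S}.ncard := by
  have h1 : (Set.Iio (conductor S)).ncard = conductor S := by
    rw [← Nat.card_coe_set_eq]
    simp
  have h2 : Set.Iio (conductor S) = (S : Set ℕ)ᶜ ∪ {x | x ∈ S ∧ x < conductor S} := by
    ext x
    constructor
    · intro hx
      by_cases h : x ∈ S
      · exact Or.inr ⟨h, hx⟩
      · exact Or.inl h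
    · rintro (h | h)
      · exact lt_conductor hS h
      · exact h.2
  have h3 : Disjoint ((S : Set ℕ)ᶜ) {x | x ∈ S ∧ x < conductor S} := by
    rw [Set.disjoint_left]
    intro x hx hx'
    exact hx hx'.1
  calc conductor S = (Set.Iio (conductor S)).ncard := h1.symm
    _ = _ := by
      rw [h2, Set.ncard_union_eq h3 hS ((Set.finite_Iio (conductor S)).subset fun x hx => hx.2)]
      rfl

/-- Wilf's inequality holds if there are more minimal generators than pseudo-Frobenius numbers. -/
theorem wilf_of_lt (hS : IsNumerical S) (h : (PF S).ncard + 1 ≤ embDim S) : Wilf S := by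
  have h1 := genus_le hS
  have h2 := conductor_eq hS
  set n := {x | x ∈ S ∧ x < conductor S}.ncard
  have h3 : genus S ≤ (embDim S - 1) * n :=
    h1.trans (Nat.mul_le_mul_right _ (by omega))
  have h4 : (genus S : ℤ) ≤ ((embDim S : ℤ) - 1) * n := by
    have := (Int.ofNat_le.2 h3)
    push_cast [Nat.cast_sub (show 1 ≤ embDim S by omega)] at this
    exact this
  have h5 : (conductor S : ℤ) = genus S + n := by exact_mod_cast h2
  unfold Wilf
  rw [h5]
  nlinarith

end Pool.Agent.Helper39.WH
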