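import Mathlib

/-!
# Numerical semigroups, Wilf's inequality, quotients: definitions
-/

set_option autoImplicit false

namespace Pool.Agent.Helper39.WH

/-- A numerical semigroup: a submonoid of `(ℕ, +)` with finite complement. -/
def IsNumerical (S : AddSubmonoid ℕ) : Prop := ((S : Set ℕ)ᶜ).Finite

/-- The minimal generators: the nonzero elements which are not a sum of two nonzero elements. -/
def minGens (S : AddSubmonoid ℕ) : Set ℕ :=
  {x | x ∈ S ∧ x ≠ 0 ∧ ∀ a ∈ S, ∀ b ∈ S, a + b = x → a = 0 ∨ b = 0}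

/-- The embedding dimension: the number of minimal generators. -/
noncomputable def embDim (S : AddSubmonoid ℕ) : ℕ := (minGens S).ncard

/-- The genus: the number of gaps. -/
noncomputable def genus (S : AddSubmonoid ℕ) : ℕ := ((S : Set ℕ)ᶜ).ncard

/-- `F(S) + 1`: the least `c` such that all `n ≥ c` belong to `S`. -/
noncomputable def conductor (S : AddSubmonoid ℕ) : ℕ := sInf {c | ∀ n, c ≤ n → n ∈ S}

/-- Wilf's inequality `e(S) g(S) ≤ (e(S) - 1) (F(S) + 1)`. -/
def Wilf (S : AddSubmonoid ℕ) : Prop :=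
  (embDim S : ℤ) * genus S ≤ ((embDim S : ℤ) - 1) * conductor S

/-- The quotient `S/p`: the `x` with `p x ∈ S`. -/
def quot (S : AddSubmonoid ℕ) (p : ℕ) : AddSubmonoid ℕ where
  carrier := {x | p * x ∈ S}
  zero_mem' := by simp
  add_mem' := fun {a b} ha hb => by
    have h : p * (a + b) = p * a + p * b := by ring
    simpa [h] using S.add_mem ha hb

/-- `S` is proportionally modular: for some real numbers `lam < mu` it consists of the `x` such that
the interval `[lam x, mu x]` contains an integer. -/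
def PropMod (S : AddSubmonoid ℕ) : Prop :=
  ∃ lam mu : ℝ, lam < mu ∧ ∀ x : ℕ, x ∈ S ↔ ∃ k : ℤ, lam * x ≤ k ∧ k ≤ mu * x

theorem mem_quot {S : AddSubmonoid ℕ} {p x : ℕ} : x ∈ quot S p ↔ p * x ∈ S := Iff.rfl

end Pool.Agent.Helper39.WH
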