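import Pool.Agent.Helper39.WH.Small
import Pool.Agent.Helper39.WH.Arith

/-!
# Gluings `d T + a ℕ` of numerical semigroups
-/

set_option autoImplicit false

namespace Pool.Agent.Helper39.WH

/-- `d T + a ℕ` -/
def glue (T : AddSubmonoid ℕ) (d a : ℕ) : AddSubmonoid ℕ where
  carrier := {x | ∃ y ∈ T, ∃ j : ℕ, x = d * y + a * j}
  zero_mem' := ⟨0, T.zero_mem, 0, by simp⟩
  add_mem' := by
    rintro x x' ⟨y, hy, j, rfl⟩ ⟨y', hy', j', rfl⟩
    exact ⟨y + y', T.add_mem hy hy', j + j', by ring⟩

variable {T : AddSubmonoid ℕ} {d a : ℕ}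

theorem mem_glue {x : ℕ} : x ∈ glue T d a ↔ ∃ y ∈ T, ∃ j : ℕ, x = d * y + a * j := Iff.rfl

/-- the normal form -/
theorem glue_key (hd : 0 < d) (ha : a ∈ T) (hc : a.Coprime d) {z : ℤ} {j x : ℕ} (hj : j < d)
    (hx : (x : ℤ) = d * z + a * j) (hm : x ∈ glue T d a) : ∃ y ∈ T, (y : ℤ) = z := by
  obtain ⟨y, hy, i, hi⟩ := hm
  have h1 : (d : ℤ) * (z - y) = a * (i - j) := by
    have : (x : ℤ) = d * y + a * i := by exact_mod_cast hi
    linarith
  have h2 : (d : ℤ) ∣ (i - j : ℤ) := by
    have h3 : IsCoprime (d : ℤ) (a : ℤ) := Nat.isCoprime_iff_coprime.2 hc.symm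
    exact h3.dvd_of_dvd_mul_left (Dvd.intro _ h1)
  obtain ⟨k, hk⟩ := h2
  have hd' : (0 : ℤ) < d := by exact_mod_cast hd
  have hk0 : 0 ≤ k := by
    by_contra hcon
    push Not at hcon
    have h3 : (j : ℤ) < d := by exact_mod_cast hj
    have h4 : (0 : ℤ) ≤ i := Int.natCast_nonneg i
    nlinarith
  obtain ⟨k', rfl⟩ := Int.eq_ofNat_of_zero_le hk0
  refine ⟨y + k' * a, T.add_mem hy ?_, ?_⟩
  · simpa using T.nsmul_mem ha k'
  · have h5 : (d : ℤ) * (z - y) = d * (a * k') := by
      rw [h1, hk]
      ring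
    have h6 := mul_left_cancel₀ hd'.ne' h5
    push_cast
    linarith

theorem glue_numerical (hT : IsNumerical T) (hd : 0 < d) (hc : a.Coprime d) :
    IsNumerical (glue T d a) := by
  refine (Set.finite_Iio (d * conductor T + a * d)).subset fun x hx => ?_
  by_contra hcon
  simp only [Set.mem_Iio, not_lt] at hcon
  apply hx
  -- choose `j < d` with `a j = x` modulo `d`
  obtain ⟨j, hj, hjx⟩ : ∃ j < d, a * j ≡ x [MOD d] := by
    obtain ⟨u, hu⟩ := Nat.exists_mul_mod_eq_of_coprime x hc hd.ne'
    exact ⟨u, hu.1, hu.2⟩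
  have h1 : a * j ≤ a * d := Nat.mul_le_mul_left _ hj.le
  have h2 : a * j ≤ x := by omega
  obtain ⟨z, hz⟩ := (Nat.modEq_iff_dvd' h2).1 hjx
  have h3 : x = d * z + a * j := by omega
  refine ⟨z, conductor_spec hT z ?_, j, h3⟩
  by_contra hz'
  push Not at hz'
  have h4 : d * (z + 1) ≤ d * conductor T := Nat.mul_le_mul_left _ hz'
  have h5 : d * (z + 1) = d * z + d := by ring
  omega

theorem d_mem_glue {t : ℕ} (ht : t ∈ T) : d * t ∈ glue T d a := ⟨t, ht, 0, by simp⟩

theorem a_mem_glue : a ∈ glue T d a := ⟨0, T.zero_mem, 1, by simp⟩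

/-- if all nonzero elements can be lowered by `z > 0`, then `T = ℕ` -/
theorem eq_top_of_shift (hT : IsNumerical T) {z : ℤ} (hz : 0 < z)
    (h : ∀ t ∈ T, t ≠ 0 → ∃ s ∈ T, (s : ℤ) = t - z) : T = ⊤ := by
  have hdvd : ∀ t : ℕ, t ∈ T → z ∣ (t : ℤ) := by
    intro t
    induction t using Nat.strong_induction_on with
    | _ t ih =>
      intro ht
      rcases Nat.eq_zero_or_pos t with h0 | h0
      · subst h0
        simp
      · obtain ⟨s, hs, hst⟩ := h t ht h0.ne'
        have h1 := ih s (by omega) hs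
        have h2 : (t : ℤ) = s + z := by linarith
        rw [h2]
        exact dvd_add h1 dvd_rfl
  have h1 := hdvd _ (conductor_spec hT _ le_rfl)
  have h2 := hdvd _ (conductor_spec hT (conductor T + 1) (by omega))
  have h3 : z ∣ 1 := by
    have := dvd_sub h2 h1
    push_cast at this
    simpa using this
  have h4 : z = 1 := by
    have := Int.le_of_dvd one_pos h3
    omega
  rw [AddSubmonoid.eq_top_iff']
  have h5 : ∀ k n : ℕ, conductor T ≤ n + k → n ∈ T := by
    intro k
    induction k with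
    | zero => exact fun n hn => conductor_spec hT n (by omega)
    | succ k ih =>
      intro n hn
      have h6 := ih (n + 1) (by omega)
      obtain ⟨s, hs, hst⟩ := h _ h6 (by omega)
      have h7 : s = n := by
        push_cast at hst
        omega
      rwa [h7] at hs
  exact fun n => h5 (conductor T) n (by omega)

/-- the pseudo-Frobenius numbers of a gluing -/
theorem pf_glue (hT : IsNumerical T) (htop : T ≠ ⊤) (hd : 0 < d) (ha : a ∈ T) (ha0 : 0 < a)
    (hc : a.Coprime d) {f : ℕ} (hf : f ∈ PF (glue T d a)) :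
    ∃ y ∈ PF T, f + a = d * y + d * a := by
  obtain ⟨y1, hy1, j1, h1⟩ := hf.2 a a_mem_glue ha0.ne'
  have hj1 : j1 = 0 := by
    by_contra h0
    obtain ⟨j, rfl⟩ := Nat.exists_eq_succ_of_ne_zero h0
    refine hf.1 ⟨y1, hy1, j, ?_⟩
    have : a * (j + 1) = a * j + a := by ring
    simp only [Nat.succ_eq_add_one] at h1
    omega
  subst hj1
  simp only [mul_zero, add_zero] at h1
  -- the key for the translates of `f`
  have key : ∀ t ∈ T, t ≠ 0 → ∃ s ∈ T, (s : ℤ) = t - (a - y1 : ℤ) := by
    intro t ht ht0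
    have h2 := hf.2 (d * t) (d_mem_glue ht) (by positivity)
    have h6 : ((f + d * t : ℕ) : ℤ) = d * ((y1 : ℤ) + t - a) + a * ((d - 1 : ℕ) : ℤ) := by
      have h4 : ((d - 1 : ℕ) : ℤ) = d - 1 := by
        rw [Nat.cast_sub hd]
        simp
      have h5 : (f : ℤ) + a = d * y1 := by exact_mod_cast h1
      rw [h4]
      push_cast
      linear_combination h5
    obtain ⟨s, hs, h3⟩ := glue_key hd ha hc (by omega) h6 h2
    exact ⟨s, hs, by linarith⟩
  have hle : a ≤ y1 := by
    by_contra hlt
    push Not at hlt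
    exact htop (eq_top_of_shift hT (z := (a : ℤ) - y1) (by omega) key)
  obtain ⟨y, rfl⟩ := Nat.exists_eq_add_of_le hle
  obtain ⟨e, rfl⟩ : ∃ e, d = e + 1 := ⟨d - 1, by omega⟩
  refine ⟨y, ⟨fun hy => ?_, fun t ht ht0 => ?_⟩, by rw [h1]; ring⟩
  · refine hf.1 ⟨y, hy, e, ?_⟩
    have : (e + 1) * (a + y) = (e + 1) * y + a * e + a := by ring
    omega
  · obtain ⟨s, hs, h2⟩ := key t ht ht0
    have : s = y + t := by
      push_cast at h2
      omega
    rwa [this] at hs

theorem card_pf_glue (hT : IsNumerical T) (htop : T ≠ ⊤) (hd : 0 < d) (ha : a ∈ T)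
    (ha0 : 0 < a) (hc : a.Coprime d) : (PF (glue T d a)).ncard ≤ (PF T).ncard := by
  classical
  choose! Y hY hYf using fun f (hf : f ∈ PF (glue T d a)) => pf_glue hT htop hd ha ha0 hc hf
  refine Set.ncard_le_ncard_of_injOn Y hY ?_ (PF_finite hT)
  intro f hf g hg hfg
  have h1 := hYf f hf
  have h2 := hYf g hg
  rw [hfg] at h1
  omega

theorem card_gens_glue (hT : IsNumerical T) (hd : 2 ≤ d) (ha : a ∈ T) (ha0 : 0 < a)
    (hc : a.Coprime d) : embDim T ≤ embDim (glue T d a) := by
  classical
  have hnd : ¬ d ∣ a := by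
    intro h
    have := Nat.Coprime.eq_one_of_dvd hc.symm h
    omega
  have hmem1 : ∀ n ∈ minGens T, n ≠ a → d * n ∈ minGens (glue T d a) := by
    intro n hn hna
    refine ⟨d_mem_glue hn.1, ?_, ?_⟩
    · have := hn.2.1
      positivity
    · rintro s1 ⟨y1, hy1, j1, rfl⟩ s2 ⟨y2, hy2, j2, rfl⟩ hs
      have h1 : d ∣ a * (j1 + j2) := by
        have h2 : d * (y1 + y2) + a * (j1 + j2) = d * n := by rw [← hs]; ring
        exact (Nat.dvd_add_right (Dvd.intro _ rfl)).1 (h2 ▸ Dvd.intro _ rfl)
      obtain ⟨k, hk⟩ := (Nat.Coprime.dvd_mul_left hc.symm).1 h1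
      have h3 : n = y1 + y2 + a * k := by
        apply Nat.eq_of_mul_eq_mul_left (show 0 < d by omega)
        rw [← hs]
        calc d * y1 + a * j1 + (d * y2 + a * j2) = d * (y1 + y2) + a * (j1 + j2) := by ring
          _ = d * (y1 + y2) + a * (d * k) := by rw [hk]
          _ = d * (y1 + y2 + a * k) := by ring
      have hak : a * k ∈ T := by
        rw [mul_comm]
        simpa using T.nsmul_mem ha k
      rcases Nat.eq_zero_or_pos k with hk0 | hk0
      · subst hk0
        have hj1 : j1 = 0 := by omega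
        have hj2 : j2 = 0 := by omega
        subst hj1 hj2
        rcases hn.2.2 y1 hy1 y2 hy2 (by omega) with h | h
        · left
          simp [h]
        · right
          simp [h]
      · exfalso
        obtain ⟨i, rfl⟩ : ∃ i, k = i + 1 := ⟨k - 1, by omega⟩
        have hai : a * i ∈ T := by
          rw [mul_comm]
          simpa using T.nsmul_mem ha i
        have h4 : a * (i + 1) = a * i + a := by ring
        rcases hn.2.2 _ (T.add_mem (T.add_mem hy1 hy2) hai) a ha (by omega) with h | h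
        · apply hna
          omega
        · omega
  have hmem2 : a ∈ minGens (glue T d a) := by
    refine ⟨a_mem_glue, ha0.ne', ?_⟩
    rintro s1 ⟨y1, hy1, j1, rfl⟩ s2 ⟨y2, hy2, j2, rfl⟩ hs
    have h2 : d * (y1 + y2) + a * (j1 + j2) = a := by
      calc _ = d * y1 + a * j1 + (d * y2 + a * j2) := by ring
        _ = a := hs
    rcases Nat.eq_zero_or_pos (j1 + j2) with h0 | h0
    · exfalso
      rw [h0, mul_zero, add_zero] at h2
      exact hnd ⟨_, h2.symm⟩
    · obtain ⟨i, hi⟩ : ∃ i, j1 + j2 = i + 1 := ⟨j1 + j2 - 1, by omega⟩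
      rw [hi] at h2
      have h4 : a * (i + 1) = a * i + a := by ring
      have h5 : d * (y1 + y2) = 0 := by omega
      have h6 : a * i = 0 := by omega
      have h7 : y1 + y2 = 0 := by
        rcases Nat.mul_eq_zero.1 h5 with h | h
        · omega
        · exact h
      have h8 : i = 0 := by
        rcases Nat.mul_eq_zero.1 h6 with h | h
        · omega
        · exact h
      have h9 : y1 = 0 := by omega
      have h10 : y2 = 0 := by omega
      subst h9 h10
      rcases Nat.eq_zero_or_pos j1 with h | h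
      · left
        simp [h]
      · right
        have : j2 = 0 := by omega
        simp [this]
  refine Set.ncard_le_ncard_of_injOn (fun n => if n = a then a else d * n) ?_ ?_
    (minGens_finite (glue_numerical hT (by omega) hc))
  · intro n hn
    by_cases h : n = a
    · simp only [h, if_true]
      exact hmem2
    · simp only [h, if_false]
      exact hmem1 n hn h
  · intro n hn n' hn' h
    by_cases h1 : n = a
    · by_cases h2 : n' = a
      · rw [h1, h2]
      · exfalso
        simp only [h1, if_true, h2, if_false] at h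
        exact hnd ⟨_, h⟩
    · by_cases h2 : n' = a
      · exfalso
        simp only [h1, if_false, h2, if_true] at h
        exact hnd ⟨_, h.symm⟩
      · simp only [h1, if_false, h2] at h
        exact Nat.eq_of_mul_eq_mul_left (by omega) h

/-- numerical, and `ℕ` or of type less than the embedding dimension -/
def Good (T : AddSubmonoid ℕ) : Prop :=
  IsNumerical T ∧ (T = ⊤ ∨ (PF T).ncard + 1 ≤ embDim T)

theorem Good.wilf (h : Good T) : Wilf T := by
  rcases h.2 with h1 | h1
  · rw [h1]
    exact wilf_top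
  · exact wilf_of_lt h.1 h1

theorem PropMod.good (h : PropMod T) : Good T := by
  refine ⟨h.isNumerical, ?_⟩
  by_cases hT : T = ⊤
  · exact Or.inl hT
  · obtain ⟨lam, mu, ht⟩ := exists_tight h hT
    exact Or.inr ht.card

theorem Good.glue (h : Good T) (hd : 0 < d) (ha : a ∈ T) (ha0 : 0 < a) (hc : a.Coprime d) :
    Good (glue T d a) := by
  rcases Nat.lt_or_ge d 2 with h2 | h2
  · have h3 : d = 1 := by omega
    subst h3
    have : WH.glue T 1 a = T := by
      ext x
      rw [mem_glue]
      constructor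
      · rintro ⟨y, hy, j, rfl⟩
        refine T.add_mem (by simpa using hy) ?_
        rw [mul_comm]
        simpa using T.nsmul_mem ha j
      · intro hx
        exact ⟨x, hx, 0, by simp⟩
    rw [this]
    exact h
  · by_cases hT : T = ⊤
    · subst hT
      refine PropMod.good (propMod_two hd ha0 hc.symm fun x => ?_)
      rw [mem_glue]
      constructor
      · rintro ⟨y, -, j, rfl⟩
        exact ⟨y, j, by ring⟩
      · rintro ⟨i, j, rfl⟩
        exact ⟨i, trivial, j, by ring⟩
    · refine ⟨glue_numerical h.1 hd hc, Or.inr ?_⟩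
      have h3 := h.2.resolve_left hT
      have h4 := card_pf_glue h.1 hT hd ha ha0 hc
      have h5 := card_gens_glue h.1 h2 ha ha0 hc
      omega

theorem quot_glue_left {p : ℕ} (hp : 0 < p) (hpd : p ∣ d) (hc : a.Coprime d) :
    quot (glue T d a) p = glue T (d / p) a := by
  obtain ⟨e, rfl⟩ := hpd
  rw [Nat.mul_div_cancel_left e hp]
  ext x
  rw [mem_quot, mem_glue, mem_glue]
  constructor
  · rintro ⟨y, hy, j, h⟩
    have h1 : p ∣ a * j := by
      have : p ∣ p * e * y + a * j := h ▸ Dvd.intro _ rfl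
      exact (Nat.dvd_add_right (Dvd.intro (e * y) (by ring))).1 this
    have h2 : Nat.Coprime p a := (Nat.Coprime.coprime_dvd_right (Dvd.intro e rfl) hc).symm
    obtain ⟨i, rfl⟩ := (Nat.Coprime.dvd_mul_left h2).1 h1
    refine ⟨y, hy, i, Nat.eq_of_mul_eq_mul_left hp ?_⟩
    rw [h]
    ring
  · rintro ⟨y, hy, i, rfl⟩
    exact ⟨y, hy, p * i, by ring⟩

theorem quot_glue_right {p : ℕ} (hp : 0 < p) (hpa : p ∣ a) (hc : a.Coprime d) :
    quot (glue T d a) p = glue (quot T p) d (a / p) := by
  obtain ⟨b, rfl⟩ := hpa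
  rw [Nat.mul_div_cancel_left b hp]
  ext x
  rw [mem_quot, mem_glue, mem_glue]
  constructor
  · rintro ⟨y, hy, j, h⟩
    have h1 : p ∣ d * y := by
      have : p ∣ d * y + p * b * j := h ▸ Dvd.intro _ rfl
      exact (Nat.dvd_add_left (Dvd.intro (b * j) (by ring))).1 this
    have h2 : Nat.Coprime p d := Nat.Coprime.coprime_dvd_left (Dvd.intro b rfl) hc
    obtain ⟨z, rfl⟩ := (Nat.Coprime.dvd_mul_left h2).1 h1
    refine ⟨z, hy, j, Nat.eq_of_mul_eq_mul_left hp ?_⟩
    rw [h]
    ring
  · rintro ⟨z, hz, j, rfl⟩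
    exact ⟨p * z, hz, j, by ring⟩

/-- The smallest class which contains the proportionally modular semigroups and, with `T`, all
`d T + a ℕ` with `a` in `T` positive and `d` positive and coprime to `a`. -/
inductive Glued : AddSubmonoid ℕ → Prop
  | base (T : AddSubmonoid ℕ) : PropMod T → Glued T
  | step (T : AddSubmonoid ℕ) (d a : ℕ) : Glued T → 0 < d → a ∈ T → 0 < a → a.Coprime d →
      Glued (glue T d a)

/-- The same with `p` dividing `d` or `a` in each step. -/
inductive GluedAt (p : ℕ) : AddSubmonoid ℕ → Prop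
  | base (T : AddSubmonoid ℕ) : PropMod T → GluedAt p T
  | step (T : AddSubmonoid ℕ) (d a : ℕ) : GluedAt p T → 0 < d → a ∈ T → 0 < a → a.Coprime d →
      (p ∣ d ∨ p ∣ a) → GluedAt p (glue T d a)

theorem Glued.good (h : Glued T) : Good T := by
  induction h with
  | base T hT => exact hT.good
  | step T d a _ hd ha ha0 hc ih => exact ih.glue hd ha ha0 hc

theorem GluedAt.glued {p : ℕ} (h : GluedAt p T) : Glued T := by
  induction h with
  | base T hT => exact Glued.base T hT
  | step T d a _ hd ha ha0 hc _ ih => exact Glued.step T d a ih hd ha ha0 hc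

theorem GluedAt.quot {p : ℕ} (hp : 0 < p) (h : GluedAt p T) : Glued (quot T p) := by
  induction h with
  | base T hT => exact Glued.base _ (hT.quot hp)
  | step T d a hT hd ha ha0 hc hpp ih =>
    rcases hpp with h1 | h1
    · rw [quot_glue_left hp h1 hc]
      obtain ⟨e, rfl⟩ := h1
      rw [Nat.mul_div_cancel_left e hp]
      exact Glued.step T e a hT.glued (Nat.pos_of_mul_pos_left hd) ha ha0
        (Nat.Coprime.coprime_dvd_right (Dvd.intro_left p rfl) hc)
    · rw [quot_glue_right hp h1 hc]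
      obtain ⟨b, rfl⟩ := h1
      rw [Nat.mul_div_cancel_left b hp]
      exact Glued.step _ d b ih hd ha (Nat.pos_of_mul_pos_left ha0)
        (Nat.Coprime.coprime_dvd_left (Dvd.intro_left p rfl) hc)

end Pool.Agent.Helper39.WH
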