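import Pool.Agent.Helper39.WH.Tight

/-!
# A proportionally modular semigroup has fewer pseudo-Frobenius numbers than minimal generators
-/

set_option autoImplicit false

namespace Pool.Agent.Helper39.WH

variable {S : AddSubmonoid ℕ} {lam mu : ℝ}

/-- distance to the lower boundary of the cone -/
noncomputable def pp (lam : ℝ) (x : ℕ) : ℝ := (⌈lam * x⌉ : ℝ) - lam * x

/-- distance to the upper boundary of the cone -/
noncomputable def qq (lam mu : ℝ) (x : ℕ) : ℝ := mu * x - (⌈lam * x⌉ : ℝ)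

/-- the two distances for a gap -/
noncomputable def al (lam : ℝ) (f : ℕ) : ℝ := lam * f - (⌊lam * f⌋ : ℝ)

noncomputable def be (lam mu : ℝ) (f : ℕ) : ℝ := (⌊lam * f⌋ : ℝ) + 1 - mu * f

theorem pp_nonneg (lam : ℝ) (x : ℕ) : 0 ≤ pp lam x := sub_nonneg.2 (Int.le_ceil _)

theorem pp_lt_one (lam : ℝ) (x : ℕ) : pp lam x < 1 := by
  have := Int.ceil_lt_add_one (lam * x)
  unfold pp
  linarith

theorem Tight.mem_iff (h : Tight S lam mu) {x : ℕ} : x ∈ S ↔ 0 ≤ qq lam mu x := by
  rw [h.mem, qq, sub_nonneg]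
  constructor
  · rintro ⟨k, h1, h2⟩
    have h3 : ⌈lam * x⌉ ≤ k := Int.ceil_le.2 h1
    have h4 : (⌈lam * x⌉ : ℝ) ≤ k := by exact_mod_cast h3
    linarith
  · intro h1
    exact ⟨_, Int.le_ceil _, h1⟩

theorem pp_add_qq (lam mu : ℝ) (x : ℕ) : pp lam x + qq lam mu x = (mu - lam) * x := by
  unfold pp qq
  ring

theorem Tight.al_pos (h : Tight S lam mu) {f : ℕ} (hf : f ∉ S) : 0 < al lam f := by
  by_contra hcon
  apply hf
  rw [h.mem]
  have h1 := Int.floor_le (lam * f)
  have h2 : lam * f ≤ mu * f := mul_le_mul_of_nonneg_right h.lt.le (Nat.cast_nonneg f)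
  unfold al at hcon
  exact ⟨⌊lam * f⌋, by linarith, by linarith⟩

theorem Tight.be_pos (h : Tight S lam mu) {f : ℕ} (hf : f ∉ S) : 0 < be lam mu f := by
  by_contra hcon
  apply hf
  rw [h.mem]
  have h1 := Int.lt_floor_add_one (lam * f)
  unfold be at hcon
  exact ⟨⌊lam * f⌋ + 1, by push_cast; linarith, by push_cast; linarith⟩

theorem Tight.be_lt_one (h : Tight S lam mu) {f : ℕ} (hf : f ∉ S) : be lam mu f < 1 := by
  have h1 := h.al_pos hf
  have h2 : lam * f ≤ mu * f := mul_le_mul_of_nonneg_right h.lt.le (Nat.cast_nonneg f)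
  unfold al at h1
  unfold be
  linarith

/-- the box of a pseudo-Frobenius number is empty -/
theorem Tight.box (h : Tight S lam mu) {f : ℕ} (hf : f ∈ PF S) {s : ℕ} (hs : s ∈ S) (hs0 : s ≠ 0)
    (hq : qq lam mu s < be lam mu f) : al lam f ≤ pp lam s := by
  obtain ⟨j, h1, h2⟩ := (h.mem _).1 (hf.2 s hs hs0)
  push_cast at h1 h2
  unfold qq be at hq
  have h3 : (j : ℝ) < ⌊lam * f⌋ + 1 + ⌈lam * s⌉ := by
    have : mu * (f + s) = mu * f + mu * s := by ring
    linarith
  have h4 : j < ⌊lam * f⌋ + 1 + ⌈lam * s⌉ := by exact_mod_cast h3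
  have h5 : (j : ℝ) ≤ ⌊lam * f⌋ + ⌈lam * s⌉ := by
    have : j ≤ ⌊lam * f⌋ + ⌈lam * s⌉ := by omega
    exact_mod_cast this
  unfold al pp
  have : lam * (f + s) = lam * f + lam * s := by ring
  linarith

/-- choice of the generator -/
theorem Tight.exists_y (h : Tight S lam mu) {f : ℕ} (hf : f ∉ S) :
    ∃ y ∈ S, y ≠ 0 ∧ qq lam mu y < be lam mu f ∧
      ∀ x ∈ S, x ≠ 0 → qq lam mu x < be lam mu f → pp lam y ≤ pp lam x := by
  have hbe := h.be_pos hf
  have hb1 := h.be_lt_one hf
  have hlt := h.lt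
  have hfin : {x | x ∈ S ∧ x ≠ 0 ∧ qq lam mu x < be lam mu f}.Finite := by
    obtain ⟨B, hB⟩ := exists_nat_gt (2 / (mu - lam))
    refine (Set.finite_Iio B).subset fun x hx => ?_
    by_contra hcon
    simp only [Set.mem_Iio, not_lt] at hcon
    have h1 := pp_add_qq lam mu x
    have h2 := pp_lt_one lam x
    have h3 := hx.2.2
    have h4 : (B : ℝ) ≤ x := by exact_mod_cast hcon
    have h5 : (mu - lam) * B ≤ (mu - lam) * x := mul_le_mul_of_nonneg_left h4 (by linarith)
    rw [div_lt_iff₀ (by linarith)] at hB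
    linarith
  have hne : {x | x ∈ S ∧ x ≠ 0 ∧ qq lam mu x < be lam mu f}.Nonempty := by
    obtain ⟨n, hn, k, hk, hl⟩ := h.high
    refine ⟨n, hn.1, hn.2.1, ?_⟩
    have h0 : lam * n ≤ k := by
      rw [hk]
      exact mul_le_mul_of_nonneg_right hlt.le (Nat.cast_nonneg n)
    have h1 : ⌈lam * n⌉ ≤ k := Int.ceil_le.2 h0
    have h2 : k < ⌈lam * n⌉ + 1 := by
      have h3 := Int.le_ceil (lam * n)
      have h4 : (k : ℝ) < ⌈lam * n⌉ + 1 := by
        rw [hk]
        have : (mu - lam) * n = mu * n - lam * n := by ring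
        linarith
      exact_mod_cast h4
    have h3 : ⌈lam * n⌉ = k := by omega
    unfold qq
    rw [h3, hk]
    simpa using hbe
  obtain ⟨y, ⟨hy1, hy2, hy3⟩, hmin⟩ := Set.exists_min_image _ (pp lam) hfin hne
  exact ⟨y, hy1, hy2, hy3, fun x hx hx0 hxq => hmin x ⟨hx, hx0, hxq⟩⟩

/-- the chosen element is a minimal generator -/
theorem Tight.y_mem (h : Tight S lam mu) {f : ℕ} (hf : f ∈ PF S) {y : ℕ} (hy : y ∈ S)
    (hy0 : y ≠ 0) (hq : qq lam mu y < be lam mu f)
    (hmin : ∀ x ∈ S, x ≠ 0 → qq lam mu x < be lam mu f → pp lam y ≤ pp lam x) :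
    y ∈ minGens S := by
  refine ⟨hy, hy0, fun a ha b hb hab => ?_⟩
  by_contra hcon
  push Not at hcon
  obtain ⟨ha0, hb0⟩ := hcon
  have hbe1 := h.be_lt_one hf.1
  have hqa := h.mem_iff.1 ha
  have hqb := h.mem_iff.1 hb
  have hal := h.al_pos hf.1
  have hpy := h.box hf hy hy0 hq
  have hc : ⌈lam * y⌉ = ⌈lam * a⌉ + ⌈lam * b⌉ := by
    have h1 : ⌈lam * y⌉ ≤ ⌈lam * a⌉ + ⌈lam * b⌉ := by
      rw [← hab]
      push_cast
      rw [mul_add]
      exact Int.ceil_add_le _ _
    have h2 : ⌈lam * a⌉ + ⌈lam * b⌉ < ⌈lam * y⌉ + 1 := by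
      have h3 : ((⌈lam * a⌉ + ⌈lam * b⌉ : ℤ) : ℝ) < ((⌈lam * y⌉ + 1 : ℤ) : ℝ) := by
        unfold qq at hqa hqb hq
        push_cast
        have h4 : mu * y = mu * a + mu * b := by
          rw [← hab]
          push_cast
          ring
        linarith
      exact_mod_cast h3
    omega
  have hcr : (⌈lam * y⌉ : ℝ) = ⌈lam * a⌉ + ⌈lam * b⌉ := by exact_mod_cast hc
  have hyr : (y : ℝ) = a + b := by exact_mod_cast hab.symm
  have hqs : qq lam mu y = qq lam mu a + qq lam mu b := by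
    unfold qq
    rw [hcr, hyr]
    ring
  have hps : pp lam y = pp lam a + pp lam b := by
    unfold pp
    rw [hcr, hyr]
    ring
  have h1 := hmin a ha ha0 (by linarith)
  have h2 := hmin b hb hb0 (by linarith)
  linarith

/-- two pseudo-Frobenius numbers with the same generator are equal -/
theorem Tight.eq_of_y (h : Tight S lam mu) {f g : ℕ} (hf : f ∈ PF S) (hg : g ∈ PF S) {y : ℕ}
    (hy : y ∈ S) (hy0 : y ≠ 0) (hqf : qq lam mu y < be lam mu f)
    (hming : ∀ x ∈ S, x ≠ 0 → qq lam mu x < be lam mu g → pp lam y ≤ pp lam x)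
    (hle : al lam g ≤ al lam f) : f = g := by
  have hlt := h.lt
  have hqy := h.mem_iff.1 hy
  have hpy := h.box hf hy hy0 hqf
  have hag := h.al_pos hg.1
  -- a positive difference cannot be an element
  have hpos : ∀ {u v : ℕ}, u ∈ PF S → v ∈ PF S → al lam v ≤ al lam u → be lam mu v ≤ be lam mu u →
      u = v := by
    intro u v hu hv h1 h2
    by_contra hne
    unfold al at h1
    unfold be at h2
    have h3 : (u : ℝ) ≤ v := by
      by_contra hc
      push Not at hc
      have : (mu - lam) * v < (mu - lam) * u := mul_lt_mul_of_pos_left hc (by linarith)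
      nlinarith
    have h4 : u ≤ v := by exact_mod_cast h3
    obtain ⟨d, rfl⟩ := Nat.exists_eq_add_of_le h4
    have hd : d ≠ 0 := by
      rintro rfl
      exact hne rfl
    refine hv.1 (hu.2 d ?_ hd)
    rw [h.mem]
    refine ⟨⌊lam * (u + d : ℕ)⌋ - ⌊lam * u⌋, ?_, ?_⟩ <;> push_cast at h1 h2 ⊢ <;> nlinarith
  rcases le_or_gt (be lam mu g) (be lam mu f) with hb | hb
  · exact hpos hf hg hle hb
  rcases hle.eq_or_lt with he | hl
  · exact (hpos hg hf he.ge hb.le).symm
  exfalso
  -- the point `y + f - g`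
  have hz : (0 : ℝ) < (y : ℝ) + f - g := by
    have h1 : (mu - lam) * ((y : ℝ) + f - g) = (pp lam y - al lam f + al lam g) +
        (qq lam mu y - be lam mu f + be lam mu g) := by
      unfold pp qq al be
      ring
    have h2 : 0 < (mu - lam) * ((y : ℝ) + f - g) := by
      rw [h1]
      linarith
    exact (mul_pos_iff_of_pos_left (sub_pos.2 hlt)).1 h2
  have hz' : g < y + f := by
    have : (g : ℝ) < ((y + f : ℕ) : ℝ) := by
      push_cast
      linarith
    exact_mod_cast this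
  obtain ⟨z, hzz⟩ : ∃ z : ℕ, y + f = g + z := ⟨y + f - g, by omega⟩
  have hz0 : z ≠ 0 := by omega
  have hzr : (z : ℝ) = y + f - g := by
    have : ((y + f : ℕ) : ℝ) = ((g + z : ℕ) : ℝ) := by rw [hzz]
    push_cast at this
    linarith
  set J : ℤ := ⌈lam * y⌉ - (⌊lam * g⌋ - ⌊lam * f⌋) with hJ
  have hpz : (J : ℝ) - lam * z = pp lam y - al lam f + al lam g := by
    rw [hJ, hzr]
    unfold pp al
    push_cast
    ring
  have hqz : mu * z - (J : ℝ) = qq lam mu y - be lam mu f + be lam mu g := by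
    rw [hJ, hzr]
    unfold qq be
    push_cast
    ring
  have hc : ⌈lam * z⌉ = J := by
    rw [Int.ceil_eq_iff]
    have := pp_lt_one lam y
    constructor <;> linarith
  have hzS : z ∈ S := by
    rw [h.mem]
    exact ⟨J, by linarith, by linarith⟩
  have h1 : qq lam mu z < be lam mu g := by
    unfold qq
    rw [hc]
    linarith
  have h2 := hming z hzS hz0 h1
  have h3 : pp lam z = pp lam y - al lam f + al lam g := by
    unfold pp
    rw [hc]
    exact hpz
  linarith

theorem Tight.card (h : Tight S lam mu) : (PF S).ncard + 1 ≤ embDim S := by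
  classical
  have hN := numerical_of_mem h.lt h.mem
  obtain ⟨n, hn, k, hk, -⟩ := h.low
  choose! Y hY1 hY2 hY3 hY4 using fun f (hf : f ∈ PF S) => h.exists_y hf.1
  have h1 : (PF S).ncard ≤ (minGens S \ {n}).ncard := by
    refine Set.ncard_le_ncard_of_injOn Y ?_ ?_ ((minGens_finite hN).subset Set.sdiff_subset)
    · intro f hf
      refine ⟨h.y_mem hf (hY1 f hf) (hY2 f hf) (hY3 f hf) (hY4 f hf), ?_⟩
      intro he
      simp only [Set.mem_singleton_iff] at he
      have h2 := h.box hf (hY1 f hf) (hY2 f hf) (hY3 f hf)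
      have h3 := h.al_pos hf.1
      rw [he] at h2
      unfold pp at h2
      rw [← hk] at h2
      simp at h2
      linarith
    · intro f hf g hg hfg
      rcases le_total (al lam g) (al lam f) with hl | hl
      · refine h.eq_of_y hf hg (hY1 f hf) (hY2 f hf) (hY3 f hf) ?_ hl
        rw [hfg]
        exact hY4 g hg
      · refine (h.eq_of_y hg hf (hY1 g hg) (hY2 g hg) (hY3 g hg) ?_ hl).symm
        rw [← hfg]
        exact hY4 f hf
  have h2 := Set.ncard_sdiff_singleton_add_one hn (minGens_finite hN)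
  unfold embDim
  omega

end Pool.Agent.Helper39.WH
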