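import Pool.Agent.Helper39.WH.PropMod

/-!
# Halves: pseudo-Frobenius numbers of `S/2` and the parities of the generators of `S`
-/

set_option autoImplicit false

namespace Pool.Agent.Helper39.WH

variable {S : AddSubmonoid ℕ}

theorem isNumerical_quot (hS : IsNumerical S) {p : ℕ} (hp : 0 < p) : IsNumerical (quot S p) := by
  refine (hS.preimage (f := fun x => p * x) ?_)
  intro x _ y _ h
  exact Nat.eq_of_mul_eq_mul_left hp h

/-- an odd element is an odd minimal generator plus an element -/
theorem exists_odd_gen {x : ℕ} (hx : x ∈ S) (ho : Odd x) :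
    ∃ o ∈ minGens S, Odd o ∧ ∃ r ∈ S, x = o + r := by
  have h1 := closure_minGens S hx
  have h2 : AddSubmonoid.closure (minGens S) ≤ S := AddSubmonoid.closure_le.2 fun z hz => hz.1
  clear hx
  induction h1 using AddSubmonoid.closure_induction with
  | mem x hx => exact ⟨x, hx, ho, 0, S.zero_mem, rfl⟩
  | zero => exact absurd ho (by decide)
  | add x y hx hy ihx ihy =>
    rcases Nat.even_or_odd x with he | he
    · have hy' : Odd y := by
        rcases Nat.even_or_odd y with h | h
        · exact absurd (he.add h) (Nat.not_even_iff_odd.2 ho)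
        · exact h
      obtain ⟨o, h3, h4, r, h5, h6⟩ := ihy hy'
      exact ⟨o, h3, h4, r + x, S.add_mem h5 (h2 hx), by omega⟩
    · obtain ⟨o, h3, h4, r, h5, h6⟩ := ihx he
      exact ⟨o, h3, h4, r + y, S.add_mem h5 (h2 hy), by omega⟩

/-- the pseudo-Frobenius numbers of the half -/
theorem pf_half (hS : IsNumerical S) {f : ℕ} (hf : f ∈ PF (quot S 2)) :
    (2 * f ∈ PF S) ∨ ∃ o ∈ minGens S, Odd o ∧ 2 * f + o ∈ PF S := by
  obtain ⟨F, hF, s, hs, hFs⟩ := exists_pf hS (x := 2 * f) hf.1
  rcases Nat.even_or_odd s with he | ho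
  · obtain ⟨u, hu⟩ := he
    have hu0 : u = 0 := by
      by_contra h0
      have h1 : u ∈ quot S 2 := by
        rw [mem_quot]
        have : 2 * u = s := by omega
        rwa [this]
      have h2 := hf.2 u h1 h0
      rw [mem_quot] at h2
      apply hF.1
      have : F = 2 * (f + u) := by omega
      rwa [this]
    left
    have : F = 2 * f := by omega
    rwa [this] at hF
  · obtain ⟨o, ho1, ho2, r, hr, hsr⟩ := exists_odd_gen hs ho
    right
    refine ⟨o, ho1, ho2, ?_⟩
    have hre : Even r := by
      rcases Nat.even_or_odd r with h | h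
      · exact h
      · exfalso
        have : Even s := by
          rw [hsr]
          exact ho2.add_odd h
        exact (Nat.not_even_iff_odd.2 ho) this
    obtain ⟨u, hu⟩ := hre
    have hu0 : u = 0 := by
      by_contra h0
      have h1 : u ∈ quot S 2 := by
        rw [mem_quot]
        have : 2 * u = r := by omega
        rwa [this]
      have h2 := hf.2 u h1 h0
      rw [mem_quot] at h2
      apply hF.1
      have : F = 2 * (f + u) + o := by omega
      rw [this]
      exact S.add_mem h2 ho1.1
    have : F = 2 * f + o := by omega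
    rwa [this] at hF

/-- `t(S/2) ≤ τ₀ + o τ₁` -/
theorem card_pf_half (hS : IsNumerical S) :
    (PF (quot S 2)).ncard ≤ {f ∈ PF S | Even f}.ncard +
      {n ∈ minGens S | Odd n}.ncard * {f ∈ PF S | Odd f}.ncard := by
  classical
  have f1 : {f ∈ PF S | Even f}.Finite := (PF_finite hS).subset fun x hx => hx.1
  have f2 : {f ∈ PF S | Odd f}.Finite := (PF_finite hS).subset fun x hx => hx.1
  have f3 : {n ∈ minGens S | Odd n}.Finite := (minGens_finite hS).subset fun x hx => hx.1
  have hsub : (PF (quot S 2)) ⊆ ((fun x => x / 2) '' {f ∈ PF S | Even f}) ∪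
      ((fun z : ℕ × ℕ => (z.2 - z.1) / 2) '' ({n ∈ minGens S | Odd n} ×ˢ {f ∈ PF S | Odd f})) := by
    intro f hf
    rcases pf_half hS hf with h | ⟨o, h1, h2, h3⟩
    · left
      exact ⟨2 * f, ⟨h, ⟨f, by omega⟩⟩, by simp⟩
    · right
      refine ⟨(o, 2 * f + o), Set.mk_mem_prod ⟨h1, h2⟩ ⟨h3, ?_⟩, ?_⟩
      · obtain ⟨m, hm⟩ := h2
        exact ⟨f + m, by omega⟩
      · change (2 * f + o - o) / 2 = f
        omega
  refine (Set.ncard_le_ncard hsub ((f1.image _).union ((f3.prod f2).image _))).trans ?_
  refine (Set.ncard_union_le _ _).trans ?_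
  refine add_le_add (Set.ncard_image_le f1) ?_
  refine (Set.ncard_image_le (f3.prod f2)).trans ?_
  rw [Set.ncard_prod]

/-- `v ≤ e(S/2)` -/
theorem card_even_le (hS : IsNumerical S) :
    {n ∈ minGens S | Even n}.ncard ≤ embDim (quot S 2) := by
  refine Set.ncard_le_ncard_of_injOn (fun x => x / 2) ?_ ?_
    (minGens_finite (isNumerical_quot hS two_pos))
  · rintro n ⟨hn, m, hm⟩
    have h2 : n / 2 = m := by omega
    refine ⟨?_, ?_, fun a ha b hb hab => ?_⟩
    · change 2 * (n / 2) ∈ S
      rw [h2]
      have : 2 * m = n := by omega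
      rw [this]
      exact hn.1
    · have := hn.2.1
      omega
    · change a + b = n / 2 at hab
      have := hn.2.2 (2 * a) ha (2 * b) hb (by omega)
      omega
  · rintro n ⟨hn, m, hm⟩ n' ⟨hn', m', hm'⟩ h
    change n / 2 = n' / 2 at h
    omega

end Pool.Agent.Helper39.WH
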