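import Pool.Agent.Helper39.WH.Inj

/-!
# Proportionally modular semigroups satisfy Wilf's inequality; examples and quotients
-/

set_option autoImplicit false

namespace Pool.Agent.Helper39.WH

variable {S : AddSubmonoid ℕ}

theorem PropMod.quot (h : PropMod S) {p : ℕ} (hp : 0 < p) : PropMod (quot S p) := by
  obtain ⟨lam, mu, h1, h2⟩ := h
  have hp' : (0 : ℝ) < p := by exact_mod_cast hp
  refine ⟨lam * p, mu * p, mul_lt_mul_of_pos_right h1 hp', fun x => ?_⟩
  rw [mem_quot, h2]
  push_cast
  simp only [mul_assoc]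

theorem minGens_top : minGens (⊤ : AddSubmonoid ℕ) = {1} := by
  ext x
  constructor
  · rintro ⟨-, h0, h⟩
    by_contra hx
    simp only [Set.mem_singleton_iff] at hx
    rcases h 1 trivial (x - 1) trivial (by omega) with h1 | h1 <;> omega
  · rintro rfl
    refine ⟨trivial, one_ne_zero, fun a _ b _ hab => by omega⟩

theorem wilf_top : Wilf (⊤ : AddSubmonoid ℕ) := by
  have h1 : embDim (⊤ : AddSubmonoid ℕ) = 1 := by
    rw [embDim, minGens_top, Set.ncard_singleton]
  have h2 : genus (⊤ : AddSubmonoid ℕ) = 0 := by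
    simp [genus]
  unfold Wilf
  rw [h1, h2]
  simp

/-- Wilf's conjecture for proportionally modular numerical semigroups. -/
theorem PropMod.wilf (h : PropMod S) : Wilf S := by
  by_cases hS : S = ⊤
  · rw [hS]
    exact wilf_top
  · obtain ⟨lam, mu, ht⟩ := exists_tight h hS
    exact wilf_of_lt h.isNumerical ht.card

/-- The semigroup generated by two coprime numbers. -/
theorem propMod_two {a b : ℕ} (ha : 0 < a) (hb : 0 < b) (hab : a.Coprime b)
    (hS : ∀ x, x ∈ S ↔ ∃ i j : ℕ, x = i * a + j * b) : PropMod S := by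
  -- `u a + v b = 1`
  set u : ℤ := Nat.gcdA a b
  set v : ℤ := Nat.gcdB a b
  have huv : (a : ℤ) * u + b * v = 1 := by
    have := Nat.gcd_eq_gcd_ab a b
    rw [hab] at this
    exact_mod_cast this.symm
  have huvr : (a : ℝ) * u + b * v = 1 := by exact_mod_cast huv
  have ha' : (0 : ℝ) < a := by exact_mod_cast ha
  have hb' : (0 : ℝ) < b := by exact_mod_cast hb
  -- `c = v`, `d = - u`: `c b - d a = 1`
  refine ⟨-(u : ℝ) / b, (v : ℝ) / a, ?_, fun x => ?_⟩
  · rw [div_lt_div_iff₀ hb' ha']
    nlinarith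
  · rw [hS]
    constructor
    · rintro ⟨i, j, rfl⟩
      refine ⟨i * v - j * u, ?_, ?_⟩
      · rw [div_mul_eq_mul_div, div_le_iff₀ hb']
        push_cast
        have : (0 : ℝ) ≤ i := Nat.cast_nonneg i
        nlinarith
      · rw [div_mul_eq_mul_div, le_div_iff₀ ha']
        push_cast
        have : (0 : ℝ) ≤ j := Nat.cast_nonneg j
        nlinarith
    · rintro ⟨k, h1, h2⟩
      rw [div_mul_eq_mul_div, div_le_iff₀ hb'] at h1
      rw [div_mul_eq_mul_div, le_div_iff₀ ha'] at h2
      have h3 : 0 ≤ k * b + u * x := by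
        have : (0 : ℝ) ≤ ((k * b + u * x : ℤ) : ℝ) := by
          push_cast
          linarith
        exact_mod_cast this
      have h4 : 0 ≤ v * x - k * a := by
        have : (0 : ℝ) ≤ ((v * x - k * a : ℤ) : ℝ) := by
          push_cast
          linarith
        exact_mod_cast this
      refine ⟨(k * b + u * x).toNat, (v * x - k * a).toNat, ?_⟩
      zify
      rw [Int.toNat_of_nonneg h3, Int.toNat_of_nonneg h4]
      linear_combination (-(x : ℤ)) * huv

/-- The solutions of a proportionally modular inequality `a x mod b ≤ c x`. -/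
theorem propMod_mod {a b c : ℕ} (hb : 0 < b) (hc : 0 < c)
    (hS : ∀ x, x ∈ S ↔ a * x % b ≤ c * x) : PropMod S := by
  have hb' : (0 : ℝ) < b := by exact_mod_cast hb
  have hc' : (0 : ℝ) < c := by exact_mod_cast hc
  refine ⟨((a : ℝ) - c) / b, (a : ℝ) / b, ?_, fun x => ?_⟩
  · rw [div_lt_div_iff_of_pos_right hb']
    linarith
  · rw [hS]
    have hdm : b * (a * x / b) + a * x % b = a * x := Nat.div_add_mod _ _
    constructor
    · intro h
      obtain ⟨N, hN⟩ : ∃ N, N = a * x / b := ⟨_, rfl⟩
      obtain ⟨r, hr⟩ : ∃ r, r = a * x % b := ⟨_, rfl⟩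
      rw [← hN, ← hr] at hdm
      rw [← hr] at h
      have h1 : (b : ℝ) * N + r = a * x := by exact_mod_cast hdm
      have h2 : (r : ℝ) ≤ c * x := by exact_mod_cast h
      have h3 : (0 : ℝ) ≤ r := Nat.cast_nonneg _
      refine ⟨(N : ℤ), ?_, ?_⟩
      · rw [div_mul_eq_mul_div, div_le_iff₀ hb']
        push_cast
        linarith
      · rw [div_mul_eq_mul_div, le_div_iff₀ hb']
        push_cast
        linarith
    · rintro ⟨k, h1, h2⟩
      rw [div_mul_eq_mul_div, div_le_iff₀ hb'] at h1
      rw [div_mul_eq_mul_div, le_div_iff₀ hb'] at h2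
      have h3 : k * b ≤ a * x := by
        have : ((k * b : ℤ) : ℝ) ≤ ((a * x : ℤ) : ℝ) := by
          push_cast
          linarith
        exact_mod_cast this
      have h4 : (a * x : ℤ) - k * b ≤ c * x := by
        have : (((a * x : ℤ) - k * b : ℤ) : ℝ) ≤ ((c * x : ℤ) : ℝ) := by
          push_cast
          linarith
        exact_mod_cast this
      have h5 : ((a * x % b : ℕ) : ℤ) = (a * x : ℤ) - b * ((a * x : ℤ) / b) := by
        push_cast
        rw [Int.emod_def]
      have h6 : k ≤ (a * x : ℤ) / b := by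
        rw [Int.le_ediv_iff_mul_le (by exact_mod_cast hb)]
        exact h3
      have h7 : ((a * x % b : ℕ) : ℤ) ≤ ((c * x : ℕ) : ℤ) := by
        rw [h5]
        push_cast
        have : (b : ℤ) * k ≤ b * ((a * x : ℤ) / b) :=
          mul_le_mul_of_nonneg_left h6 (by positivity)
        linarith
      exact_mod_cast h7

end Pool.Agent.Helper39.WH
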