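import Pool.Agent.Helper39.WH.Three

/-!
# At most three pseudo-Frobenius numbers imply Wilf's inequality; halves
-/

set_option autoImplicit false

namespace Pool.Agent.Helper39.WH

variable {S : AddSubmonoid ℕ}

/-- a numerical semigroup with two minimal generators is proportionally modular -/
theorem propMod_of_two (hS : IsNumerical S) (he : embDim S = 2) : PropMod S := by
  classical
  obtain ⟨a, b, -, hG⟩ := Set.ncard_eq_two.1 he
  have ha : a ∈ minGens S := by simp [hG]
  have hb : b ∈ minGens S := by simp [hG]
  have hgen : ∀ x ∈ S, ∃ i j : ℕ, x = i * a + j * b := by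
    intro x hx
    have hcl := closure_minGens S hx
    rw [hG] at hcl
    clear hx
    induction hcl using AddSubmonoid.closure_induction with
    | mem x hx =>
      simp only [Set.mem_insert_iff, Set.mem_singleton_iff] at hx
      rcases hx with rfl | rfl
      · exact ⟨1, 0, by ring⟩
      · exact ⟨0, 1, by ring⟩
    | zero => exact ⟨0, 0, by ring⟩
    | add x y hx hy ihx ihy =>
      obtain ⟨i, j, h1⟩ := ihx
      obtain ⟨k, l, h2⟩ := ihy
      exact ⟨i + k, j + l, by rw [h1, h2]; ring⟩
  have hcop : a.Coprime b := by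
    have hdvd : ∀ x ∈ S, Nat.gcd a b ∣ x := by
      intro x hx
      obtain ⟨i, j, rfl⟩ := hgen x hx
      exact dvd_add (dvd_mul_of_dvd_right (Nat.gcd_dvd_left a b) _)
        (dvd_mul_of_dvd_right (Nat.gcd_dvd_right a b) _)
    have h1 := hdvd _ (conductor_spec hS _ le_rfl)
    have h2 := hdvd _ (conductor_spec hS (conductor S + 1) (by omega))
    exact Nat.dvd_one.1 ((Nat.dvd_add_right h1).1 h2)
  refine propMod_two (Nat.pos_of_ne_zero ha.2.1) (Nat.pos_of_ne_zero hb.2.1) hcop fun x =>
    ⟨hgen x, ?_⟩
  rintro ⟨i, j, rfl⟩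
  exact S.add_mem (by simpa using S.nsmul_mem ha.1 i) (by simpa using S.nsmul_mem hb.1 j)

/-- Wilf's inequality if there are at most three pseudo-Frobenius numbers -/
theorem wilf_of_le_three (hS : IsNumerical S) (h : (PF S).ncard ≤ 3) : Wilf S := by
  rcases Nat.lt_or_ge (embDim S) 4 with h4 | h4
  · have h0 : 0 < embDim S := by
      rw [embDim, Set.ncard_pos (minGens_finite hS)]
      exact minGens_nonempty hS
    have h3 : embDim S = 1 ∨ embDim S = 2 ∨ embDim S = 3 := by omega
    rcases h3 with h3 | h3 | h3
    · obtain ⟨a, hG⟩ := Set.ncard_eq_one.1 h3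
      have hdvd : ∀ x ∈ S, a ∣ x := by
        intro x hx
        have hcl := closure_minGens S hx
        rw [hG] at hcl
        clear hx
        induction hcl using AddSubmonoid.closure_induction with
        | mem x hx =>
          simp only [Set.mem_singleton_iff] at hx
          rw [hx]
        | zero => exact dvd_zero _
        | add x y hx hy ihx ihy => exact dvd_add ihx ihy
      have h5 := hdvd _ (conductor_spec hS _ le_rfl)
      have h6 := hdvd _ (conductor_spec hS (conductor S + 1) (by omega))
      have h7 : a = 1 := Nat.dvd_one.1 ((Nat.dvd_add_right h5).1 h6)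
      have h8 : S = ⊤ := by
        rw [AddSubmonoid.eq_top_iff']
        intro x
        have h9 : (1 : ℕ) ∈ minGens S := by
          rw [hG, h7]
          rfl
        simpa using S.nsmul_mem h9.1 x
      rw [h8]
      exact wilf_top
    · exact (propMod_of_two hS h3).wilf
    · exact wilf_of_lt hS (by rw [h3]; exact Nat.succ_le_succ (pf_le_two hS h3))
  · exact wilf_of_lt hS (by omega)

/-- Wilf's inequality for the half -/
theorem wilf_half (hS : IsNumerical S)
    (h : {f ∈ PF S | Even f}.ncard + {n ∈ minGens S | Odd n}.ncard * {f ∈ PF S | Odd f}.ncard <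
      max {n ∈ minGens S | Even n}.ncard 4) : Wilf (quot S 2) := by
  have h1 := card_pf_half hS
  have h2 := card_even_le hS
  have h3 := isNumerical_quot hS two_pos
  rcases lt_max_iff.1 h with h4 | h4
  · exact wilf_of_lt h3 (by omega)
  · exact wilf_of_le_three h3 (by omega)

theorem pred_conductor_not_mem (h0 : 0 < conductor S) (hS : IsNumerical S) :
    conductor S - 1 ∉ S := by
  intro h
  have h1 : conductor S - 1 ∈ {c | ∀ n, c ≤ n → n ∈ S} := by
    intro n hn
    rcases Nat.eq_or_lt_of_le hn with h2 | h2
    · rw [← h2]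
      exact h
    · exact conductor_spec hS n (by omega)
  have h2 : conductor S ≤ conductor S - 1 := Nat.sInf_le h1
  omega

/-- the half of a symmetric numerical semigroup -/
theorem wilf_half_symm (hS : IsNumerical S) (hsym : ∀ x, x ∉ S → conductor S - 1 - x ∈ S)
    (h : {n ∈ minGens S | Odd n}.ncard < max {n ∈ minGens S | Even n}.ncard 4) :
    Wilf (quot S 2) := by
  have hF : ∀ f ∈ PF S, f = conductor S - 1 := by
    intro f hf
    have h1 := lt_conductor hS hf.1
    by_contra h2
    have h3 := hf.2 _ (hsym f hf.1) (by omega)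
    have h4 : f + (conductor S - 1 - f) = conductor S - 1 := by omega
    rw [h4] at h3
    exact pred_conductor_not_mem (by omega) hS h3
  have h0 : {f ∈ PF S | Even f} = ∅ := by
    rw [Set.eq_empty_iff_forall_notMem]
    rintro f ⟨hf, m, hm⟩
    have h1 := lt_conductor hS hf.1
    have h2 := hF f hf
    by_cases h3 : m ∈ S
    · exact hf.1 (by rw [hm]; exact S.add_mem h3 h3)
    · have h4 := hsym m h3
      have h5 : conductor S - 1 - m = m := by omega
      rw [h5] at h4
      exact h3 h4
  have h1 : {f ∈ PF S | Odd f}.ncard ≤ 1 := by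
    refine (Set.ncard_le_ncard (t := {conductor S - 1}) ?_ (Set.finite_singleton _)).trans
      (Set.ncard_singleton _).le
    rintro f ⟨hf, -⟩
    exact hF f hf
  refine wilf_half hS (lt_of_le_of_lt ?_ h)
  rw [h0, Set.ncard_empty, zero_add]
  calc _ ≤ {n ∈ minGens S | Odd n}.ncard * 1 := Nat.mul_le_mul_left _ h1
    _ = _ := Nat.mul_one _

end Pool.Agent.Helper39.WH
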