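import Pool.Agent.Helper39.WH.Parity

/-!
# At most two pseudo-Frobenius numbers if there are three generators; small type
-/

set_option autoImplicit false

namespace Pool.Agent.Helper39.WH

variable {S : AddSubmonoid ℕ}

section three

variable {n1 n2 n3 : ℕ}

/-- the reduced representations by `n1`, `n2` -/
def DD (S : AddSubmonoid ℕ) (n1 n2 n3 a b : ℕ) : Prop :=
  (∀ t ∈ S, a * n1 + b * n2 ≠ n3 + t) ∧ ∀ a' b', a' * n1 + b' * n2 = a * n1 + b * n2 → a ≤ a'

theorem DD.down (h1 : n1 ∈ S) (h2 : n2 ∈ S) {a b a' b' : ℕ} (h : DD S n1 n2 n3 a b)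
    (ha : a' ≤ a) (hb : b' ≤ b) : DD S n1 n2 n3 a' b' := by
  obtain ⟨u, rfl⟩ := Nat.exists_eq_add_of_le ha
  obtain ⟨v, rfl⟩ := Nat.exists_eq_add_of_le hb
  refine ⟨fun t ht he => ?_, fun c d hcd => ?_⟩
  · refine h.1 (t + (u * n1 + v * n2)) (S.add_mem ht (S.add_mem ?_ ?_)) ?_
    · simpa using S.nsmul_mem h1 u
    · simpa using S.nsmul_mem h2 v
    · linarith [he, add_mul a' u n1, add_mul b' v n2]
  · have e : (c + u) * n1 + (d + v) * n2 = (a' + u) * n1 + (b' + v) * n2 := by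
      linarith [hcd, add_mul a' u n1, add_mul b' v n2, add_mul c u n1, add_mul d v n2]
    have := h.2 (c + u) (d + v) e
    omega

/-- interior minimal elements of the complement are relations `x n1 + y n2 = c n3` -/
theorem interior (hp1 : 0 < n1) (hgen : ∀ x ∈ S, ∃ a b c : ℕ, x = a * n1 + b * n2 + c * n3)
    (h1 : n1 ∈ S) (h2 : n2 ∈ S) (h3 : n3 ∈ S) {x y : ℕ}
    (hU : ¬ DD S n1 n2 n3 (x + 1) (y + 1)) (hD1 : DD S n1 n2 n3 x (y + 1))
    (hD2 : DD S n1 n2 n3 (x + 1) y) : ∃ c, (x + 1) * n1 + (y + 1) * n2 = c * n3 := by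
  have hm : ∀ a b c : ℕ, a * n1 + b * n2 + c * n3 ∈ S := fun a b c =>
    S.add_mem (S.add_mem (by simpa using S.nsmul_mem h1 a) (by simpa using S.nsmul_mem h2 b))
      (by simpa using S.nsmul_mem h3 c)
  by_cases hi : ∃ t ∈ S, (x + 1) * n1 + (y + 1) * n2 = n3 + t
  · obtain ⟨t, ht, he⟩ := hi
    obtain ⟨a, b, c, rfl⟩ := hgen t ht
    rcases Nat.eq_zero_or_pos a with ha | ha
    · rcases Nat.eq_zero_or_pos b with hb | hb
      · subst ha hb
        exact ⟨c + 1, by rw [he]; ring⟩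
      · exfalso
        obtain ⟨b', rfl⟩ : ∃ b', b = b' + 1 := ⟨b - 1, by omega⟩
        refine hD2.1 _ (hm a b' c) ?_
        linarith [he, add_mul y 1 n2, add_mul b' 1 n2]
    · exfalso
      obtain ⟨a', rfl⟩ : ∃ a', a = a' + 1 := ⟨a - 1, by omega⟩
      refine hD1.1 _ (hm a' b c) ?_
      linarith [he, add_mul x 1 n1, add_mul a' 1 n1]
  · exfalso
    push Not at hi
    apply hU
    refine ⟨hi, fun a b hab => ?_⟩
    by_contra hlt
    push Not at hlt
    rcases Nat.eq_zero_or_pos a with ha | ha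
    · rcases Nat.eq_zero_or_pos b with hb | hb
      · subst ha hb
        have : 0 < (x + 1) * n1 := by positivity
        simp at hab
        omega
      · obtain ⟨b', rfl⟩ : ∃ b', b = b' + 1 := ⟨b - 1, by omega⟩
        have := hD2.2 a b' (by linarith [hab, add_mul y 1 n2, add_mul b' 1 n2])
        omega
    · obtain ⟨a', rfl⟩ : ∃ a', a = a' + 1 := ⟨a - 1, by omega⟩
      have := hD1.2 a' b (by linarith [hab, add_mul x 1 n1, add_mul a' 1 n1])
      omega

/-- there are not two interior minimal elements -/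
theorem not_two_interior (hp1 : 0 < n1)
    (hgen : ∀ x ∈ S, ∃ a b c : ℕ, x = a * n1 + b * n2 + c * n3)
    (h1 : n1 ∈ S) (h2 : n2 ∈ S) (h3 : n3 ∈ S) {x y x' y' : ℕ} (hx : x < x') (hy : y' < y)
    (hU : ¬ DD S n1 n2 n3 (x + 1) (y + 1)) (hD1 : DD S n1 n2 n3 x (y + 1))
    (hD2 : DD S n1 n2 n3 (x + 1) y)
    (hU' : ¬ DD S n1 n2 n3 (x' + 1) (y' + 1)) (hD1' : DD S n1 n2 n3 x' (y' + 1))
    (hD2' : DD S n1 n2 n3 (x' + 1) y') : False := by
  obtain ⟨c, hc⟩ := interior hp1 hgen h1 h2 h3 hU hD1 hD2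
  obtain ⟨c', hc'⟩ := interior hp1 hgen h1 h2 h3 hU' hD1' hD2'
  obtain ⟨u, rfl⟩ : ∃ u, x' = x + (u + 1) := ⟨x' - x - 1, by omega⟩
  obtain ⟨v, rfl⟩ : ∃ v, y = y' + (v + 1) := ⟨y - y' - 1, by omega⟩
  have hm : ∀ a b c : ℕ, a * n1 + b * n2 + c * n3 ∈ S := fun a b c =>
    S.add_mem (S.add_mem (by simpa using S.nsmul_mem h1 a) (by simpa using S.nsmul_mem h2 b))
      (by simpa using S.nsmul_mem h3 c)
  have hd1 : DD S n1 n2 n3 (u + 1) 0 := hD1'.down h1 h2 (by omega) (by omega)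
  have hd2 : DD S n1 n2 n3 0 (v + 1) := hD2.down h1 h2 (by omega) (by omega)
  rcases lt_trichotomy c c' with hcc | hcc | hcc
  · obtain ⟨k, rfl⟩ : ∃ k, c' = c + (k + 1) := ⟨c' - c - 1, by omega⟩
    refine hd1.1 _ (hm 0 (v + 1) k) ?_
    nlinarith [hc, hc']
  · subst hcc
    have := hd1.2 0 (v + 1) (by nlinarith [hc, hc'])
    omega
  · obtain ⟨k, rfl⟩ : ∃ k, c = c' + (k + 1) := ⟨c - c' - 1, by omega⟩
    refine hd2.1 _ (hm (u + 1) 0 k) ?_
    nlinarith [hc, hc']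

/-- Three corners are impossible. -/
theorem not_three_corners (hp1 : 0 < n1)
    (hgen : ∀ x ∈ S, ∃ a b c : ℕ, x = a * n1 + b * n2 + c * n3)
    (h1 : n1 ∈ S) (h2 : n2 ∈ S) (h3 : n3 ∈ S) {a1 b1 a2 b2 a3 b3 : ℕ} (h12 : a1 < a2)
    (h23 : a2 < a3) (hb : DD S n1 n2 n3 a1 b1) (hb' : ¬ DD S n1 n2 n3 (a1 + 1) b1)
    (hc : DD S n1 n2 n3 a2 b2) (hc' : ¬ DD S n1 n2 n3 (a2 + 1) b2)
    (hd : DD S n1 n2 n3 a3 b3) : False := by
  classical
  have e1 : ∃ y, ¬ DD S n1 n2 n3 (a1 + 1) y := ⟨b1, hb'⟩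
  have e2 : ∃ y, ¬ DD S n1 n2 n3 (a2 + 1) y := ⟨b2, hc'⟩
  have s1 := Nat.find_spec e1
  have s2 := Nat.find_spec e2
  have l1 : Nat.find e1 ≤ b1 := Nat.find_min' e1 hb'
  have l2 : Nat.find e2 ≤ b2 := Nat.find_min' e2 hc'
  have g1 : b2 < Nat.find e1 := by
    by_contra h
    push Not at h
    exact s1 (hc.down h1 h2 (by omega) h)
  have g2 : b3 < Nat.find e2 := by
    by_contra h
    push Not at h
    exact s2 (hd.down h1 h2 (by omega) h)
  obtain ⟨y1, hy1⟩ : ∃ y, Nat.find e1 = y + 1 := ⟨Nat.find e1 - 1, by omega⟩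
  obtain ⟨y2, hy2⟩ : ∃ y, Nat.find e2 = y + 1 := ⟨Nat.find e2 - 1, by omega⟩
  have m1 : DD S n1 n2 n3 (a1 + 1) y1 := by
    by_contra h
    have := Nat.find_min' e1 h
    omega
  have m2 : DD S n1 n2 n3 (a2 + 1) y2 := by
    by_contra h
    have := Nat.find_min' e2 h
    omega
  rw [hy1] at s1 l1 g1
  rw [hy2] at s2 l2 g2
  exact not_two_interior hp1 hgen h1 h2 h3 (x := a1) (y := y1) (x' := a2) (y' := y2) h12
    (by omega) s1 (hb.down h1 h2 le_rfl (by omega)) m1 s2 (hc.down h1 h2 le_rfl (by omega)) m2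

end three

/-- Three-generated semigroups have at most two pseudo-Frobenius numbers. -/
theorem pf_le_two (hS : IsNumerical S) (he : embDim S = 3) : (PF S).ncard ≤ 2 := by
  classical
  obtain ⟨n1, n2, n3, -, -, -, hG⟩ := Set.ncard_eq_three.1 he
  have h1 : n1 ∈ minGens S := by simp [hG]
  have h2 : n2 ∈ minGens S := by simp [hG]
  have h3 : n3 ∈ minGens S := by simp [hG]
  have hp1 : 0 < n1 := Nat.pos_of_ne_zero h1.2.1
  have hgen : ∀ x ∈ S, ∃ a b c : ℕ, x = a * n1 + b * n2 + c * n3 := by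
    intro x hx
    have hcl := closure_minGens S hx
    rw [hG] at hcl
    clear hx
    induction hcl using AddSubmonoid.closure_induction with
    | mem x hx =>
      simp only [Set.mem_insert_iff, Set.mem_singleton_iff] at hx
      rcases hx with rfl | rfl | rfl
      · exact ⟨1, 0, 0, by ring⟩
      · exact ⟨0, 1, 0, by ring⟩
      · exact ⟨0, 0, 1, by ring⟩
    | zero => exact ⟨0, 0, 0, by ring⟩
    | add x y hx hy ihx ihy =>
      obtain ⟨a, b, c, ha⟩ := ihx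
      obtain ⟨a', b', c', ha'⟩ := ihy
      exact ⟨a + a', b + b', c + c', by rw [ha, ha']; ring⟩
  have key : ∀ f ∈ PF S, ∃ a b : ℕ, a * n1 + b * n2 = f + n3 ∧ DD S n1 n2 n3 a b := by
    intro f hf
    have hfn := hf.2 n3 h3.1 h3.2.1
    have hex : ∃ a, ∃ b, a * n1 + b * n2 = f + n3 := by
      obtain ⟨a, b, c, hc⟩ := hgen _ hfn
      rcases Nat.eq_zero_or_pos c with h0 | h0
      · subst h0
        exact ⟨a, b, by rw [hc]; ring⟩
      · exfalso
        obtain ⟨k, rfl⟩ : ∃ k, c = k + 1 := ⟨c - 1, by omega⟩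
        apply hf.1
        have : f = a * n1 + b * n2 + k * n3 := by linarith [hc, add_mul k 1 n3]
        rw [this]
        exact S.add_mem (S.add_mem (by simpa using S.nsmul_mem h1.1 a)
          (by simpa using S.nsmul_mem h2.1 b)) (by simpa using S.nsmul_mem h3.1 k)
    obtain ⟨b, hb⟩ := Nat.find_spec hex
    refine ⟨Nat.find hex, b, hb, fun t ht he => ?_, fun a' b' hab => ?_⟩
    · apply hf.1
      have : f = t := by omega
      rwa [this]
    · exact Nat.find_min' hex ⟨b', by omega⟩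
  choose! A B hAB hD using key
  have hn1 : ∀ f ∈ PF S, ¬ DD S n1 n2 n3 (A f + 1) (B f) := by
    intro f hf h
    refine h.1 (f + n1) (hf.2 n1 h1.1 h1.2.1) ?_
    have := hAB f hf
    linarith [add_mul (A f) 1 n1]
  have hn2 : ∀ f ∈ PF S, ¬ DD S n1 n2 n3 (A f) (B f + 1) := by
    intro f hf h
    refine h.1 (f + n2) (hf.2 n2 h2.1 h2.2.1) ?_
    have := hAB f hf
    linarith [add_mul (B f) 1 n2]
  have hinj : ∀ f ∈ PF S, ∀ g ∈ PF S, A f = A g → f = g := by
    intro f hf g hg h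
    have h4 := hAB f hf
    have h5 := hAB g hg
    rcases lt_trichotomy (B f) (B g) with h6 | h6 | h6
    · exact absurd ((hD g hg).down h1.1 h2.1 h.le h6) (hn2 f hf)
    · rw [h, h6] at h4
      omega
    · exact absurd ((hD f hf).down h1.1 h2.1 h.ge h6) (hn2 g hg)
  have hno : ∀ f ∈ PF S, ∀ g ∈ PF S, ∀ k ∈ PF S, A f < A g → A g < A k → False :=
    fun f hf g hg k hk h4 h5 => not_three_corners hp1 hgen h1.1 h2.1 h3.1 h4 h5 (hD f hf)
      (hn1 f hf) (hD g hg) (hn1 g hg) (hD k hk)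
  by_contra hcon
  push Not at hcon
  obtain ⟨f, g, k, hf, hg, hk, hfg, hfk, hgk⟩ := (Set.two_lt_ncard_iff (PF_finite hS)).1 hcon
  have d1 : A f ≠ A g := fun h => hfg (hinj f hf g hg h)
  have d2 : A f ≠ A k := fun h => hfk (hinj f hf k hk h)
  have d3 : A g ≠ A k := fun h => hgk (hinj g hg k hk h)
  rcases lt_or_gt_of_ne d1 with h4 | h4 <;> rcases lt_or_gt_of_ne d2 with h5 | h5 <;>
    rcases lt_or_gt_of_ne d3 with h6 | h6
  · exact hno f hf g hg k hk h4 h6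
  · exact hno f hf k hk g hg h5 h6
  · omega
  · exact hno k hk f hf g hg h5 h4
  · exact hno g hg f hf k hk h4 h5
  · omega
  · exact hno g hg k hk f hf h6 h5
  · exact hno k hk g hg f hf h6 h4

end Pool.Agent.Helper39.WH
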