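import Pool.Agent.Helper39.WH.Basic

/-!
# Proportionally modular semigroups: choice of the interval
-/

set_option autoImplicit false

namespace Pool.Agent.Helper39.WH

variable {S : AddSubmonoid ℕ}

/-- `(lam, mu)` defines `S` and both ends of the interval are attained at minimal generators of
level less than one. -/
structure Tight (S : AddSubmonoid ℕ) (lam mu : ℝ) : Prop where
  lt : lam < mu
  mem : ∀ x : ℕ, x ∈ S ↔ ∃ k : ℤ, lam * x ≤ k ∧ k ≤ mu * x
  low : ∃ n ∈ minGens S, ∃ k : ℤ, (k : ℝ) = lam * n ∧ (mu - lam) * n < 1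
  high : ∃ n ∈ minGens S, ∃ k : ℤ, (k : ℝ) = mu * n ∧ (mu - lam) * n < 1

theorem numerical_of_mem {lam mu : ℝ} (h : lam < mu)
    (hS : ∀ x : ℕ, x ∈ S ↔ ∃ k : ℤ, lam * x ≤ k ∧ k ≤ mu * x) : IsNumerical S := by
  obtain ⟨B, hB⟩ := exists_nat_gt (1 / (mu - lam))
  refine (Set.finite_Iio B).subset fun x hx => ?_
  by_contra hcon
  simp only [Set.mem_Iio, not_lt] at hcon
  apply hx
  change x ∈ S
  rw [hS]
  refine ⟨⌈lam * x⌉, Int.le_ceil _, ?_⟩
  have h1 := Int.ceil_lt_add_one (lam * x)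
  have h2 : (B : ℝ) ≤ x := by exact_mod_cast hcon
  have h3 : 1 < (mu - lam) * B := by
    rw [div_lt_iff₀ (by linarith)] at hB
    linarith
  have h4 : (mu - lam) * B ≤ (mu - lam) * x := mul_le_mul_of_nonneg_left h2 (by linarith)
  nlinarith

theorem PropMod.isNumerical (h : PropMod S) : IsNumerical S := by
  obtain ⟨lam, mu, h1, h2⟩ := h
  exact numerical_of_mem h1 h2

/-- elements of `S` satisfy an interval condition which holds for the minimal generators -/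
theorem interval_of_gens {a b : ℝ}
    (h : ∀ n ∈ minGens S, ∃ k : ℤ, a * n ≤ k ∧ k ≤ b * n) {x : ℕ} (hx : x ∈ S) :
    ∃ k : ℤ, a * x ≤ k ∧ k ≤ b * x := by
  have h1 := closure_minGens S hx
  clear hx
  induction h1 using AddSubmonoid.closure_induction with
  | mem x hx => exact h x hx
  | zero => exact ⟨0, by simp, by simp⟩
  | add x y hx' hy' ihx ihy =>
    obtain ⟨k, h1, h2⟩ := ihx
    obtain ⟨l, h3, h4⟩ := ihy
    refine ⟨k + l, ?_, ?_⟩ <;> push_cast <;> linarith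

theorem minGens_nonempty (hS : IsNumerical S) : (minGens S).Nonempty := by
  by_contra h
  rw [Set.not_nonempty_iff_eq_empty] at h
  have h1 : (conductor S + 1) ∈ S := conductor_spec hS _ (by omega)
  have h2 := closure_minGens S h1
  rw [h, AddSubmonoid.closure_empty, AddSubmonoid.mem_bot] at h2
  omega

theorem exists_tight (h : PropMod S) (hS : S ≠ ⊤) : ∃ lam mu, Tight S lam mu := by
  have hN := h.isNumerical
  obtain ⟨lam, mu, hlt, hmem⟩ := h
  obtain ⟨n1, hn1, hmin⟩ := Set.exists_min_image (minGens S)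
    (fun n : ℕ => (⌊mu * n⌋ : ℝ) / n) (minGens_finite hN) (minGens_nonempty hN)
  have hn1p : (0 : ℝ) < n1 := by exact_mod_cast Nat.pos_of_ne_zero hn1.2.1
  set lam' : ℝ := (⌊mu * n1⌋ : ℝ) / n1 with hlam'
  have e1 : lam' * n1 = ⌊mu * n1⌋ := by
    rw [hlam']
    field_simp
  have l1 : lam ≤ lam' := by
    obtain ⟨k, hk1, hk2⟩ := (hmem n1).1 hn1.1
    have : k ≤ ⌊mu * n1⌋ := Int.le_floor.2 hk2
    have h3 : (k : ℝ) ≤ ⌊mu * n1⌋ := by exact_mod_cast this
    rw [hlam', le_div_iff₀ hn1p]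
    linarith
  have l2 : ∀ n ∈ minGens S, lam' * n ≤ ⌊mu * n⌋ := by
    intro n hn
    have hnp : (0 : ℝ) < n := by exact_mod_cast Nat.pos_of_ne_zero hn.2.1
    have h3 : lam' ≤ (⌊mu * n⌋ : ℝ) / n := hmin n hn
    rwa [le_div_iff₀ hnp] at h3
  have m1 : ∀ x : ℕ, x ∈ S ↔ ∃ k : ℤ, lam' * x ≤ k ∧ k ≤ mu * x := by
    intro x
    constructor
    · intro hx
      exact interval_of_gens (fun n hn => ⟨⌊mu * n⌋, l2 n hn, Int.floor_le _⟩) hx
    · rintro ⟨k, hk1, hk2⟩
      refine (hmem x).2 ⟨k, ?_, hk2⟩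
      have : lam * x ≤ lam' * x := mul_le_mul_of_nonneg_right l1 (Nat.cast_nonneg x)
      linarith
  obtain ⟨n2, hn2, hmax⟩ := Set.exists_max_image (minGens S)
    (fun n : ℕ => (⌈lam' * n⌉ : ℝ) / n) (minGens_finite hN) (minGens_nonempty hN)
  have hn2p : (0 : ℝ) < n2 := by exact_mod_cast Nat.pos_of_ne_zero hn2.2.1
  set mu' : ℝ := (⌈lam' * n2⌉ : ℝ) / n2 with hmu'
  have e2 : mu' * n2 = ⌈lam' * n2⌉ := by
    rw [hmu']
    field_simp
  have l3 : mu' ≤ mu := by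
    have h1 := l2 n2 hn2
    have h2 : ⌈lam' * n2⌉ ≤ ⌊mu * n2⌋ := Int.ceil_le.2 h1
    have h3 : (⌈lam' * n2⌉ : ℝ) ≤ ⌊mu * n2⌋ := by exact_mod_cast h2
    have h4 := Int.floor_le (mu * n2)
    rw [hmu', div_le_iff₀ hn2p]
    linarith
  have l4 : ∀ n ∈ minGens S, ⌈lam' * n⌉ ≤ mu' * n := by
    intro n hn
    have hnp : (0 : ℝ) < n := by exact_mod_cast Nat.pos_of_ne_zero hn.2.1
    have h3 : (⌈lam' * n⌉ : ℝ) / n ≤ mu' := hmax n hn
    rwa [div_le_iff₀ hnp] at h3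
  have m2 : ∀ x : ℕ, x ∈ S ↔ ∃ k : ℤ, lam' * x ≤ k ∧ k ≤ mu' * x := by
    intro x
    constructor
    · intro hx
      exact interval_of_gens (fun n hn => ⟨⌈lam' * n⌉, Int.le_ceil _, l4 n hn⟩) hx
    · rintro ⟨k, hk1, hk2⟩
      refine (m1 x).2 ⟨k, hk1, ?_⟩
      have : mu' * x ≤ mu * x := mul_le_mul_of_nonneg_right l3 (Nat.cast_nonneg x)
      linarith
  have hlt' : lam' < mu' := by
    by_contra hcon
    push Not at hcon
    apply hS
    have key : ∀ x ∈ S, ∃ k : ℤ, (k : ℝ) = lam' * x := by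
      intro x hx
      obtain ⟨k, hk1, hk2⟩ := (m2 x).1 hx
      refine ⟨k, le_antisymm ?_ hk1⟩
      have : mu' * x ≤ lam' * x := mul_le_mul_of_nonneg_right hcon (Nat.cast_nonneg x)
      linarith
    obtain ⟨k, hk⟩ := key _ (conductor_spec hN (conductor S) le_rfl)
    obtain ⟨l, hl⟩ := key _ (conductor_spec hN (conductor S + 1) (by omega))
    have h1 : lam' = ((l - k : ℤ) : ℝ) := by
      push_cast at hl ⊢
      linarith
    have h2 : 1 ∈ S := by
      rw [m2]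
      have hh : lam' ≤ mu' := by
        obtain ⟨j, hj1, hj2⟩ := (m2 n2).1 hn2.1
        have : lam' * n2 ≤ mu' * n2 := by linarith
        exact le_of_mul_le_mul_right this hn2p
      exact ⟨l - k, by rw [h1]; simp, by rw [← h1]; simpa using hh⟩
    refine (AddSubmonoid.eq_top_iff' S).2 fun x => ?_
    have := S.nsmul_mem h2 x
    simpa using this
  refine ⟨lam', mu', hlt', m2, ⟨n1, hn1, ⌊mu * n1⌋, e1.symm, ?_⟩,
    ⟨n2, hn2, ⌈lam' * n2⌉, e2.symm, ?_⟩⟩
  · have h1 := Int.lt_floor_add_one (mu * n1)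
    have h2 : mu' * n1 ≤ mu * n1 := mul_le_mul_of_nonneg_right l3 hn1p.le
    have h3 : (mu' - lam') * n1 = mu' * n1 - lam' * n1 := by ring
    rw [h3, e1]
    linarith
  · have h1 := Int.ceil_lt_add_one (lam' * n2)
    have h3 : (mu' - lam') * n2 = mu' * n2 - lam' * n2 := by ring
    rw [h3, e2]
    linarith

end Pool.Agent.Helper39.WH
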